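import Pool.Agent.helper57.LQ.SpecB

/-! Row lq:EXP (MP_ebc808_nt) -/

set_option autoImplicit false

open Finset PowerSeries

noncomputable section

namespace Pool.Agent.LQ

theorem EXP_coeff_ex (p m : ℕ) (f : FF) :
    coeff m (ex p f) = if p ∣ m then coeff (m / p) f else 0 := by
  unfold ex
  rw [coeff_mk]

theorem EXP_T_ex (p n : ℕ) (f : FF) (hp : p.Prime) (hn : n.Coprime p) :
    T n (ex p f) = ex p (T n f) := by
  ext m
  rw [coeff_T, EXP_coeff_ex]
  have key : ∀ d ∈ (Nat.gcd m n).divisors, (p ∣ m * n / d ^ 2 ↔ p ∣ m) := by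
    intro d hd
    have hd1 := Nat.dvd_of_mem_divisors hd
    obtain ⟨a, rfl⟩ := hd1.trans (Nat.gcd_dvd_left m n)
    obtain ⟨b, rfl⟩ := hd1.trans (Nat.gcd_dvd_right (d * a) n)
    have hd0 : 0 < d := Nat.pos_of_mem_divisors hd
    have e : d * a * (d * b) / d ^ 2 = a * b := by
      rw [show d * a * (d * b) = a * b * d ^ 2 by ring]
      exact Nat.mul_div_cancel _ (by positivity)
    rw [e]
    have h1 : ¬ p ∣ d := fun h => by
      have := Nat.dvd_gcd (h.mul_right b) (dvd_refl p)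
      rw [hn.gcd_eq_one] at this
      exact hp.one_lt.ne' (Nat.dvd_one.1 this)
    have h2 : ¬ p ∣ b := fun h => by
      have := Nat.dvd_gcd (h.mul_left d) (dvd_refl p)
      rw [hn.gcd_eq_one] at this
      exact hp.one_lt.ne' (Nat.dvd_one.1 this)
    rw [hp.dvd_mul, hp.dvd_mul]
    tauto
  by_cases hm : p ∣ m
  · rw [if_pos hm, coeff_T]
    obtain ⟨k, rfl⟩ := hm
    rw [Nat.mul_div_cancel_left _ hp.pos]
    have hg : Nat.gcd (p * k) n = Nat.gcd k n := Nat.Coprime.gcd_mul_left_cancel k hn.symm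
    rw [hg] at key ⊢
    refine sum_congr rfl fun d hd => ?_
    rw [EXP_coeff_ex, if_pos ((key d hd).2 ⟨k, rfl⟩)]
    congr 1
    have hd1 := Nat.dvd_of_mem_divisors hd
    obtain ⟨a, rfl⟩ := hd1.trans (Nat.gcd_dvd_left k n)
    obtain ⟨b, rfl⟩ := hd1.trans (Nat.gcd_dvd_right (d * a) n)
    have hd0 : 0 < d := Nat.pos_of_mem_divisors hd
    rw [show p * (d * a) * (d * b) = p * (a * b) * d ^ 2 by ring, Nat.mul_div_cancel _ (by positivity),
      Nat.mul_div_cancel_left _ hp.pos, show d * a * (d * b) = a * b * d ^ 2 by ring,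
      Nat.mul_div_cancel _ (by positivity)]
  · rw [if_neg hm]
    refine sum_eq_zero fun d hd => ?_
    rw [EXP_coeff_ex, if_neg (fun h => hm ((key d hd).1 h))]

theorem EXP : EXP_stmt := by
  have h3 : ∀ (s : ℕ) (f : FF), f ^ (2 ^ s) = ex (2 ^ s) f := by
    intro s f
    rw [Pool.Agent.helper12.PE.pow_eq_expand, ex_eq (pow_ne_zero s (by norm_num))]
  refine ⟨?_, ?_, h3, EXP_T_ex, ?_, ?_⟩
  · intro p f g hp
    simp only [ex_eq hp]
    exact ⟨map_mul _ _ _, map_add _ _ _, map_one _, fun k => map_pow _ _ _⟩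
  · intro p q f hp hq
    ext m
    rw [EXP_coeff_ex, EXP_coeff_ex, EXP_coeff_ex]
    by_cases h1 : p ∣ m
    · obtain ⟨k, rfl⟩ := h1
      rw [if_pos (Dvd.intro k rfl), Nat.mul_div_cancel_left _ (Nat.pos_of_ne_zero hp)]
      have e : (p * q ∣ p * k) ↔ q ∣ k := Nat.mul_dvd_mul_iff_left (Nat.pos_of_ne_zero hp)
      by_cases h2 : q ∣ k
      · rw [if_pos h2, if_pos (e.2 h2), Nat.mul_div_mul_left _ _ (Nat.pos_of_ne_zero hp)]
      · rw [if_neg h2, if_neg (fun h => h2 (e.1 h))]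
    · rw [if_neg h1, if_neg (fun h => h1 ((Dvd.intro q rfl).trans h))]
  · intro n f hn
    have h := h3 1
    simp only [pow_one] at h
    rw [h, h, EXP_T_ex 2 n f Nat.prime_two hn.coprime_two_right]
  · intro p m f hp
    rw [coeff_T]
    by_cases hm : p ∣ m
    · rw [if_pos hm, Nat.gcd_eq_right hm, hp.sum_divisors]
      obtain ⟨k, rfl⟩ := hm
      rw [Nat.mul_div_cancel_left _ hp.pos, one_pow, Nat.div_one,
        show p * k * p = k * p ^ 2 by ring, Nat.mul_div_cancel _ (pow_pos hp.pos 2), add_comm,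
        show k * p ^ 2 = p * (p * k) by ring]
    · rw [if_neg hm, add_zero]
      have hg : Nat.gcd m p = 1 := ((Nat.Prime.coprime_iff_not_dvd hp).2 hm).symm
      rw [hg, Nat.divisors_one, sum_singleton, one_pow, Nat.div_one, mul_comm]

end Pool.Agent.LQ
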