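import Pool.Agent.helper57.LQ.SpecC

/-! Row lq:PS1 (MP_ebc808_nt) -/

set_option autoImplicit false

open Finset PowerSeries

noncomputable section

namespace Pool.Agent.LQ

theorem PS1_invol (n : ℕ) (s : Finset ℕ) (hs : ∀ d ∈ s, d ∣ n ∧ n / d ∈ s ∧ d * d ≠ n) (hn : n ≠ 0) :
    ∑ _d ∈ s, (1 : ZMod 2) = 0 := by
  refine sum_involution (fun d _ => n / d) ?_ ?_ ?_ ?_
  · intro d _
    decide
  · intro d hd _ h
    obtain ⟨h1, -, h3⟩ := hs d hd
    apply h3
    nth_rewrite 1 [← h]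
    exact Nat.div_mul_cancel h1
  · intro d hd
    exact (hs d hd).2.1
  · intro d hd
    obtain ⟨h1, -, -⟩ := hs d hd
    exact Nat.div_div_self h1 hn

theorem PS1_card (n : ℕ) (hn : n ≠ 0) :
    ∑ _d ∈ n.divisors, (1 : ZMod 2) = if IsSquare n then 1 else 0 := by
  classical
  by_cases h : IsSquare n
  · rw [if_pos h]
    obtain ⟨r, hr⟩ := h
    have hr0 : r ≠ 0 := by
      rintro rfl
      exact hn (by rw [hr])
    have hmem : r ∈ n.divisors := Nat.mem_divisors.2 ⟨⟨r, hr⟩, hn⟩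
    rw [← Finset.add_sum_erase _ _ hmem, PS1_invol n (n.divisors.erase r) ?_ hn, add_zero]
    intro d hd
    rw [mem_erase, Nat.mem_divisors] at hd
    obtain ⟨h1, h2, -⟩ := hd
    have h3 : d * d ≠ n := by
      intro h3
      rw [hr] at h3
      exact h1 (Nat.mul_self_inj.1 h3)
    refine ⟨h2, ?_, h3⟩
    rw [mem_erase, Nat.mem_divisors]
    refine ⟨?_, Nat.div_dvd_of_dvd h2, hn⟩
    intro h4
    have h5 : r * d = r * r := by
      rw [← hr, ← h4]
      exact Nat.div_mul_cancel h2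
    exact h1 (Nat.eq_of_mul_eq_mul_left (Nat.pos_of_ne_zero hr0) h5)
  · rw [if_neg h]
    refine PS1_invol n n.divisors (fun d hd => ?_) hn
    rw [Nat.mem_divisors] at hd
    exact ⟨hd.1, Nat.mem_divisors.2 ⟨Nat.div_dvd_of_dvd hd.1, hn⟩, fun h3 => h ⟨d, h3.symm⟩⟩

theorem PS1_sq24 (e : ℕ) (he : e.Coprime 6) : e ^ 2 % 24 = 1 := by
  have h2 : e % 2 = 1 := by
    have : e.Coprime 2 := he.coprime_dvd_right (by norm_num)
    exact Nat.odd_iff.1 (Nat.coprime_two_right.1 this)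
  have h3 : e % 3 ≠ 0 := by
    have : e.Coprime 3 := he.coprime_dvd_right (by norm_num)
    intro h
    have h4 := Nat.dvd_gcd (Nat.dvd_of_mod_eq_zero h) (dvd_refl 3)
    rw [this.gcd_eq_one] at h4
    norm_num at h4
  have h5 : e % 24 = 1 ∨ e % 24 = 5 ∨ e % 24 = 7 ∨ e % 24 = 11 ∨ e % 24 = 13 ∨ e % 24 = 17 ∨
      e % 24 = 19 ∨ e % 24 = 23 := by omega
  rw [Nat.pow_mod]
  rcases h5 with h | h | h | h | h | h | h | h <;> rw [h]

theorem PS1_sq8 (e : ℕ) (he : Odd e) : e ^ 2 % 8 = 1 := by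
  have h5 : e % 8 = 1 ∨ e % 8 = 3 ∨ e % 8 = 5 ∨ e % 8 = 7 := by
    have := Nat.odd_iff.1 he
    omega
  rw [Nat.pow_mod]
  rcases h5 with h | h | h | h <;> rw [h]

theorem PS1 (hTGR : TGR_stmt) : PS1_stmt := by
  classical
  obtain ⟨t1, t2, -, t4, t5, -⟩ := hTGR
  refine ⟨?_, ?_, ?_, ?_⟩
  · intro i hi
    ext n
    rw [coeff_Psi, map_zero]
    by_cases hn : n.Coprime 6
    · rw [if_pos hn]
      refine sum_eq_zero fun e he => ?_
      by_contra h
      have h1 := t4 i (e ^ 2) h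
      rw [PS1_sq24 e (hn.coprime_dvd_left (Nat.dvd_of_mem_divisors he))] at h1
      exact hi h1.symm
    · rw [if_neg hn]
  · ext n
    rw [coeff_Psi, t1]
    by_cases hn : n.Coprime 6
    · have hn0 : n ≠ 0 := by
        rintro rfl
        norm_num at hn
      rw [if_pos hn, sum_congr rfl (g := fun _ => (1 : ZMod 2)), PS1_card n hn0]
      · by_cases h : IsSquare n
        · obtain ⟨r, hr⟩ := h
          rw [if_pos ⟨r, hr⟩, if_pos]
          refine ⟨r, ?_, by rw [hr, sq]⟩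
          exact hn.coprime_dvd_left ⟨r, hr⟩
        · rw [if_neg h, if_neg]
          rintro ⟨u, -, hu⟩
          exact h ⟨u, by rw [hu, sq]⟩
      · intro e he
        rw [t1, if_pos]
        exact ⟨e, hn.coprime_dvd_left (Nat.dvd_of_mem_divisors he), rfl⟩
    · rw [if_neg hn, if_neg]
      rintro ⟨u, hu, rfl⟩
      exact hn (Nat.Coprime.pow_left 2 hu)
  · intro i hi
    ext n
    rw [coeff_Psi, map_zero]
    by_cases hn : n.Coprime 2
    · rw [if_pos hn]
      refine sum_eq_zero fun e he => ?_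
      by_contra h
      have h1 := t5 i (e ^ 2) h
      rw [PS1_sq8 e (Nat.coprime_two_right.1 (hn.coprime_dvd_left (Nat.dvd_of_mem_divisors he)))] at h1
      exact hi h1.symm
    · rw [if_neg hn]
  · ext n
    rw [coeff_Psi, t2]
    by_cases hn : n.Coprime 2
    · have hn0 : n ≠ 0 := by
        rintro rfl
        norm_num at hn
      rw [if_pos hn, sum_congr rfl (g := fun _ => (1 : ZMod 2)), PS1_card n hn0]
      · by_cases h : IsSquare n
        · obtain ⟨r, hr⟩ := h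
          rw [if_pos ⟨r, hr⟩, if_pos]
          refine ⟨r, ?_, by rw [hr, sq]⟩
          exact Nat.coprime_two_right.1 (hn.coprime_dvd_left ⟨r, hr⟩)
        · rw [if_neg h, if_neg]
          rintro ⟨u, -, hu⟩
          exact h ⟨u, by rw [hu, sq]⟩
      · intro e he
        rw [t2, if_pos]
        exact ⟨e, Nat.coprime_two_right.1 (hn.coprime_dvd_left (Nat.dvd_of_mem_divisors he)), rfl⟩
    · rw [if_neg hn, if_neg]
      rintro ⟨u, hu, rfl⟩
      exact hn (Nat.Coprime.pow_left 2 (Nat.coprime_two_right.2 hu))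

end Pool.Agent.LQ
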