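import Pool.Agent.helper57.LQ.SpecC

/-! Row lq:SEL6 (MP_ebc808_nt) -/

set_option autoImplicit false

open Finset PowerSeries

noncomputable section

namespace Pool.Agent.LQ

theorem SEL6_cop (k : ℕ) : k.Coprime 6 ↔ k % 2 = 1 ∧ k % 3 ≠ 0 := by
  constructor
  · intro he
    constructor
    · have : k.Coprime 2 := he.coprime_dvd_right (by norm_num)
      exact Nat.odd_iff.1 (Nat.coprime_two_right.1 this)
    · have : k.Coprime 3 := he.coprime_dvd_right (by norm_num)
      intro h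
      have h4 := Nat.dvd_gcd (Nat.dvd_of_mod_eq_zero h) (dvd_refl 3)
      rw [this.gcd_eq_one] at h4
      norm_num at h4
  · rintro ⟨h2, h3⟩
    have a2 : k.Coprime 2 := Nat.coprime_two_right.2 (Nat.odd_iff.2 h2)
    have a3 : k.Coprime 3 := ((Nat.Prime.coprime_iff_not_dvd Nat.prime_three).2
      (fun h => h3 (Nat.mod_eq_zero_of_dvd h))).symm
    exact (Nat.Coprime.mul_right a2 a3 : k.Coprime (2 * 3))

/-- The pairs of positive numbers with `P a + B b = e`. -/
def SEL6_S (n P B e : ℕ) : Finset (ℕ × ℕ) :=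
  (range (n + 1) ×ˢ range (n + 1)).filter (fun x => 0 < x.1 ∧ 0 < x.2 ∧ P * x.1 + B * x.2 = e)

theorem SEL6_mem (n P B e : ℕ) (x : ℕ × ℕ) : x ∈ SEL6_S n P B e ↔
    x.1 < n + 1 ∧ x.2 < n + 1 ∧ 0 < x.1 ∧ 0 < x.2 ∧ P * x.1 + B * x.2 = e := by
  unfold SEL6_S
  rw [mem_filter, mem_product, mem_range, mem_range]
  tauto

theorem SEL6_sum (n P B : ℕ) (hn : 0 < n) (hP : 0 < P) (hB : 0 < B) (c : ℕ → ZMod 2) :
    ∑ e ∈ n.divisors, ∑ x ∈ SEL6_S n P B e, c (x.1 * x.2) =
      ∑ x ∈ SEL6_S n P B n, ∑ d ∈ (Nat.gcd x.2 x.1).divisors, c (x.2 * x.1 / d ^ 2) := by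
  rw [sum_sigma', sum_sigma']
  refine sum_bij' (fun x _ => ⟨(n / x.1 * x.2.1, n / x.1 * x.2.2), n / x.1⟩)
    (fun y _ => ⟨n / y.2, (y.1.1 / y.2, y.1.2 / y.2)⟩) ?_ ?_ ?_ ?_ ?_
  · rintro ⟨e, a, b⟩ hx
    rw [mem_sigma, Nat.mem_divisors, SEL6_mem] at hx
    obtain ⟨⟨⟨q, hq⟩, -⟩, h1, h2, h3, h4, h5⟩ := hx
    dsimp only at h1 h2 h3 h4 h5 hq ⊢
    have he : 0 < e := by
      rw [← h5]
      positivity
    have hq0 : 0 < q := Nat.pos_of_ne_zero (by
      rintro rfl
      rw [mul_zero] at hq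
      omega)
    have hd : n / e = q := by
      rw [hq]
      exact Nat.mul_div_cancel_left _ he
    rw [hd, mem_sigma, SEL6_mem, Nat.mem_divisors]
    dsimp only
    have h6 : P * (q * a) + B * (q * b) = n := by
      rw [hq, ← h5]
      ring
    have h7 : q * a ≤ P * (q * a) := Nat.le_mul_of_pos_left _ hP
    have h8 : q * b ≤ B * (q * b) := Nat.le_mul_of_pos_left _ hB
    refine ⟨⟨by omega, by omega, by positivity, by positivity, h6⟩,
      Nat.dvd_gcd ⟨b, rfl⟩ ⟨a, rfl⟩, ?_⟩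
    exact (Nat.gcd_pos_of_pos_left _ (by positivity)).ne'
  · rintro ⟨⟨a, b⟩, d⟩ hx
    rw [mem_sigma, Nat.mem_divisors, SEL6_mem] at hx
    obtain ⟨⟨h1, h2, h3, h4, h5⟩, h6, -⟩ := hx
    dsimp only at h1 h2 h3 h4 h5 h6 ⊢
    obtain ⟨b', rfl⟩ := h6.trans (Nat.gcd_dvd_left b a)
    obtain ⟨a', rfl⟩ := h6.trans (Nat.gcd_dvd_right (d * b') a)
    have hd : 0 < d := Nat.pos_of_mul_pos_right h3
    have ha : 0 < a' := Nat.pos_of_mul_pos_left h3
    have hb : 0 < b' := Nat.pos_of_mul_pos_left h4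
    have h7 : n = d * (P * a' + B * b') := by
      rw [← h5]
      ring
    have h8 : n / d = P * a' + B * b' := by
      rw [h7]
      exact Nat.mul_div_cancel_left _ hd
    rw [h8, Nat.mul_div_cancel_left _ hd, Nat.mul_div_cancel_left _ hd, mem_sigma, SEL6_mem,
      Nat.mem_divisors]
    dsimp only
    have h9 : a' ≤ d * a' := Nat.le_mul_of_pos_left _ hd
    have h10 : b' ≤ d * b' := Nat.le_mul_of_pos_left _ hd
    exact ⟨⟨⟨d, by rw [h7]; ring⟩, hn.ne'⟩, by omega, by omega, ha, hb, rfl⟩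
  · rintro ⟨e, a, b⟩ hx
    rw [mem_sigma, Nat.mem_divisors, SEL6_mem] at hx
    obtain ⟨⟨⟨q, hq⟩, -⟩, h1, h2, h3, h4, h5⟩ := hx
    dsimp only at h1 h2 h3 h4 h5 hq ⊢
    have he : 0 < e := by
      rw [← h5]
      positivity
    have hq0 : 0 < q := Nat.pos_of_ne_zero (by
      rintro rfl
      rw [mul_zero] at hq
      omega)
    have hd : n / e = q := by
      rw [hq]
      exact Nat.mul_div_cancel_left _ he
    have hd2 : n / q = e := by
      rw [hq]
      exact Nat.mul_div_cancel _ hq0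
    rw [hd, hd2, Nat.mul_div_cancel_left _ hq0, Nat.mul_div_cancel_left _ hq0]
  · rintro ⟨⟨a, b⟩, d⟩ hx
    rw [mem_sigma, Nat.mem_divisors, SEL6_mem] at hx
    obtain ⟨⟨h1, h2, h3, h4, h5⟩, h6, -⟩ := hx
    dsimp only at h1 h2 h3 h4 h5 h6 ⊢
    obtain ⟨b', rfl⟩ := h6.trans (Nat.gcd_dvd_left b a)
    obtain ⟨a', rfl⟩ := h6.trans (Nat.gcd_dvd_right (d * b') a)
    have hd : 0 < d := Nat.pos_of_mul_pos_right h3
    have ha : 0 < a' := Nat.pos_of_mul_pos_left h3
    have h7 : n = d * (P * a' + B * b') := by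
      rw [← h5]
      ring
    have h8 : n / d = P * a' + B * b' := by
      rw [h7]
      exact Nat.mul_div_cancel_left _ hd
    have h9 : n / (P * a' + B * b') = d := by
      rw [h7]
      exact Nat.mul_div_cancel _ (by positivity)
    rw [h8, h9, Nat.mul_div_cancel_left _ hd, Nat.mul_div_cancel_left _ hd]
  · rintro ⟨e, a, b⟩ hx
    rw [mem_sigma, Nat.mem_divisors, SEL6_mem] at hx
    obtain ⟨⟨⟨q, hq⟩, -⟩, h1, h2, h3, h4, h5⟩ := hx
    dsimp only at h1 h2 h3 h4 h5 hq ⊢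
    have he : 0 < e := by
      rw [← h5]
      positivity
    have hq0 : 0 < q := Nat.pos_of_ne_zero (by
      rintro rfl
      rw [mul_zero] at hq
      omega)
    have hd : n / e = q := by
      rw [hq]
      exact Nat.mul_div_cancel_left _ he
    rw [hd, show q * b * (q * a) = a * b * q ^ 2 by ring, Nat.mul_div_cancel _ (by positivity)]

/-- The sum over `u` as a sum over the even `x`. -/
theorem SEL6_step1 (e : ℕ) (he : e.Coprime 6) (c : ℕ → ZMod 2) :
    ∑ u ∈ (range e).filter (fun u => u.Coprime 6), c ((e ^ 2 - u ^ 2) / 24) =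
      ∑ x ∈ (range e).filter (fun x => 0 < x ∧ x % 2 = 0 ∧ (x % 3 = 0 ∨ (e - x) % 3 = 0)),
        c (x * (e - x) / 6) := by
  rw [SEL6_cop] at he
  obtain ⟨he2, he3⟩ := he
  refine sum_bij' (fun u _ => if (e - u) % 4 = 0 then (e - u) / 2 else (e + u) / 2)
    (fun x _ => if 2 * x ≤ e then e - 2 * x else 2 * x - e) ?_ ?_ ?_ ?_ ?_
  · intro u hu
    rw [mem_filter, mem_range, SEL6_cop] at hu
    rw [mem_filter, mem_range]
    obtain ⟨k, hk⟩ : ∃ k, e = u + 2 * k := ⟨(e - u) / 2, by omega⟩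
    have h3 : k % 3 = 0 ∨ (u + k) % 3 = 0 := by
      have a1 : u % 3 = 1 ∨ u % 3 = 2 := by omega
      have a2 : k % 3 = 0 ∨ k % 3 = 1 ∨ k % 3 = 2 := by omega
      rcases a1 with a1 | a1 <;> rcases a2 with a2 | a2 | a2 <;> omega
    have h4 : (e - u) / 2 = k := by omega
    have h5 : (e + u) / 2 = u + k := by omega
    rw [h4, h5]
    have h6 : e - k = u + k := by omega
    have h7 : e - (u + k) = k := by omega
    split_ifs with h
    · rw [h6]
      omega
    · rw [h7]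
      omega
  · intro x hx
    rw [mem_filter, mem_range] at hx
    rw [mem_filter, mem_range, SEL6_cop]
    split_ifs with h
    · omega
    · omega
  · intro u hu
    rw [mem_filter, mem_range, SEL6_cop] at hu
    split_ifs with h h1 h1
    · omega
    · omega
    · omega
    · omega
  · intro x hx
    rw [mem_filter, mem_range] at hx
    split_ifs with h h1 h1
    · omega
    · omega
    · omega
    · omega
  · intro u hu
    rw [mem_filter, mem_range, SEL6_cop] at hu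
    have hue : u ≤ e := hu.1.le
    have key : e ^ 2 - u ^ 2 = (e - u) * (e + u) := by
      rw [mul_comm]
      exact Nat.sq_sub_sq e u
    congr 1
    split_ifs with h
    · obtain ⟨k, hk⟩ : ∃ k, e - u = 2 * k := ⟨(e - u) / 2, by omega⟩
      have h1 : e = u + 2 * k := by omega
      rw [key, hk, show e + u = 2 * (u + k) by omega, Nat.mul_div_cancel_left _ (by norm_num),
        show e - k = u + k by omega, show 2 * k * (2 * (u + k)) = 4 * (k * (u + k)) by ring,
        show (24 : ℕ) = 4 * 6 by norm_num, Nat.mul_div_mul_left _ _ (by norm_num)]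
    · obtain ⟨k, hk⟩ : ∃ k, e - u = 2 * k := ⟨(e - u) / 2, by omega⟩
      have h1 : e = u + 2 * k := by omega
      rw [key, hk, show e + u = 2 * (u + k) by omega, Nat.mul_div_cancel_left _ (by norm_num),
        show e - (u + k) = k by omega, show 2 * k * (2 * (u + k)) = 4 * ((u + k) * k) by ring,
        show (24 : ℕ) = 4 * 6 by norm_num, Nat.mul_div_mul_left _ _ (by norm_num)]

theorem SEL6_step2 (n e : ℕ) (hen : e ≤ n) (he : e.Coprime 6) (c : ℕ → ZMod 2) :
    ∑ x ∈ (range e).filter (fun x => 0 < x ∧ x % 2 = 0 ∧ (x % 3 = 0 ∨ (e - x) % 3 = 0)),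
        c (x * (e - x) / 6) =
      ∑ x ∈ SEL6_S n 6 1 e, c (x.1 * x.2) + ∑ x ∈ SEL6_S n 2 3 e, c (x.1 * x.2) := by
  rw [SEL6_cop] at he
  obtain ⟨he2, he3⟩ := he
  rw [← sum_filter_add_sum_filter_not _ (fun x => x % 3 = 0)]
  congr 1
  · refine sum_bij' (fun x _ => (x / 6, e - x)) (fun y _ => 6 * y.1) ?_ ?_ ?_ ?_ ?_
    · intro x hx
      rw [mem_filter, mem_filter, mem_range] at hx
      rw [SEL6_mem]
      dsimp only
      omega
    · intro y hy
      rw [SEL6_mem] at hy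
      rw [mem_filter, mem_filter, mem_range]
      omega
    · intro x hx
      rw [mem_filter, mem_filter, mem_range] at hx
      omega
    · intro y hy
      rw [SEL6_mem] at hy
      refine Prod.ext ?_ ?_
      · dsimp only
        omega
      · dsimp only
        omega
    · intro x hx
      rw [mem_filter, mem_filter, mem_range] at hx
      obtain ⟨k, rfl⟩ : ∃ k, x = 6 * k := ⟨x / 6, by omega⟩
      dsimp only
      rw [Nat.mul_div_cancel_left _ (by norm_num : 0 < 6), mul_assoc,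
        Nat.mul_div_cancel_left _ (by norm_num : 0 < 6)]
  · refine sum_bij' (fun x _ => (x / 2, (e - x) / 3)) (fun y _ => 2 * y.1) ?_ ?_ ?_ ?_ ?_
    · intro x hx
      rw [mem_filter, mem_filter, mem_range] at hx
      rw [SEL6_mem]
      dsimp only
      omega
    · intro y hy
      rw [SEL6_mem] at hy
      rw [mem_filter, mem_filter, mem_range]
      omega
    · intro x hx
      rw [mem_filter, mem_filter, mem_range] at hx
      omega
    · intro y hy
      rw [SEL6_mem] at hy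
      refine Prod.ext ?_ ?_
      · dsimp only
        omega
      · dsimp only
        omega
    · intro x hx
      rw [mem_filter, mem_filter, mem_range] at hx
      obtain ⟨k, rfl⟩ : ∃ k, x = 2 * k := ⟨x / 2, by omega⟩
      obtain ⟨l, hl⟩ : ∃ l, e - 2 * k = 3 * l := ⟨(e - 2 * k) / 3, by omega⟩
      dsimp only
      rw [hl, Nat.mul_div_cancel_left _ (by norm_num : 0 < 2),
        Nat.mul_div_cancel_left _ (by norm_num : 0 < 3), show 2 * k * (3 * l) = 6 * (k * l) by ring,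
        Nat.mul_div_cancel_left _ (by norm_num : 0 < 6)]

theorem SEL6_sq24 (e : ℕ) (he : e.Coprime 6) : e ^ 2 % 24 = 1 := by
  rw [SEL6_cop] at he
  have h5 : e % 24 = 1 ∨ e % 24 = 5 ∨ e % 24 = 7 ∨ e % 24 = 11 ∨ e % 24 = 13 ∨ e % 24 = 17 ∨
      e % 24 = 19 ∨ e % 24 = 23 := by omega
  rw [Nat.pow_mod]
  rcases h5 with h | h | h | h | h | h | h | h <;> rw [h]

/-- The coefficient at a square. -/
theorem SEL6_coeff (hTGR : TGR_stmt) (hEXP : EXP_stmt) (m : ℕ) (hm : 1 ≤ m) (e : ℕ)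
    (he : e.Coprime 6) : coeff (e ^ 2) (tt ^ (1 + 24 * m)) =
      ∑ u ∈ (range e).filter (fun u => u.Coprime 6), coeff ((e ^ 2 - u ^ 2) / 24) (DD ^ m) := by
  classical
  obtain ⟨t1, t2, t3, -, -, -⟩ := hTGR
  obtain ⟨e1, e2, e3, -, -, -⟩ := hEXP
  have h0 : coeff 0 (DD ^ m) = 0 := by
    have h1 : coeff 0 DD = 0 := by
      rw [t2, if_neg]
      rintro ⟨v, hv, h⟩
      have : v = 0 := pow_eq_zero_iff (two_ne_zero) |>.1 h.symm
      subst this
      exact absurd hv (by decide)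
    rw [coeff_zero_eq_constantCoeff_apply] at h1 ⊢
    rw [map_pow, h1, zero_pow (by omega)]
  have h1 : tt ^ (24 * m) = ex 24 (DD ^ m) := by
    have h2 : tt ^ 24 = ex 24 DD := by
      have h3 : tt ^ 24 = (ex 3 DD) ^ (2 ^ 3) := by
        rw [t3, ← pow_mul]
        norm_num
      rw [h3, e3, e2 _ _ _ (by norm_num) (by norm_num)]
      norm_num
    rw [pow_mul, h2, ← (e1 24 DD DD (by norm_num)).2.2.2 m]
  have hc : ∀ k : ℕ, coeff k (ex 24 (DD ^ m)) = if 24 ∣ k then coeff (k / 24) (DD ^ m) else 0 := by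
    intro k
    unfold ex
    rw [coeff_mk]
  rw [pow_add, pow_one, h1, coeff_mul,
    Finset.Nat.sum_antidiagonal_eq_sum_range_succ
      (fun i j => coeff i tt * coeff j (ex 24 (DD ^ m)))]
  have h2 : ∑ k ∈ range (e ^ 2).succ, coeff k tt * coeff (e ^ 2 - k) (ex 24 (DD ^ m)) =
      ∑ k ∈ (range (e ^ 2).succ).filter (fun k => ∃ u : ℕ, u.Coprime 6 ∧ k = u ^ 2),
        coeff (e ^ 2 - k) (ex 24 (DD ^ m)) := by
    rw [sum_filter]
    refine sum_congr rfl fun k _ => ?_
    rw [t1]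
    split_ifs with h
    · rw [one_mul]
    · rw [zero_mul]
  rw [h2]
  have h3 : ∑ k ∈ (range (e ^ 2).succ).filter (fun k => ∃ u : ℕ, u.Coprime 6 ∧ k = u ^ 2),
        coeff (e ^ 2 - k) (ex 24 (DD ^ m)) =
      ∑ u ∈ (range (e + 1)).filter (fun u => u.Coprime 6), coeff ((e ^ 2 - u ^ 2) / 24) (DD ^ m) := by
    symm
    refine sum_nbij (fun u => u ^ 2) ?_ ?_ ?_ ?_
    · intro u hu
      rw [mem_filter, mem_range] at hu
      rw [mem_filter, mem_range]
      refine ⟨Nat.lt_succ_of_le (Nat.pow_le_pow_left (Nat.le_of_lt_succ hu.1) 2), u, hu.2, rfl⟩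
    · intro u _ v _ h
      exact Nat.pow_left_injective (by norm_num : 2 ≠ 0) h
    · intro k hk
      rw [mem_coe, mem_filter, mem_range] at hk
      obtain ⟨h4, u, hu, rfl⟩ := hk
      refine ⟨u, ?_, rfl⟩
      rw [mem_coe, mem_filter, mem_range]
      refine ⟨?_, hu⟩
      have := (Nat.pow_le_pow_iff_left (two_ne_zero)).1 (Nat.le_of_lt_succ h4)
      omega
    · intro u hu
      rw [mem_filter, mem_range] at hu
      rw [hc, if_pos]
      have h5 := SEL6_sq24 u hu.2
      have h6 := SEL6_sq24 e he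
      have h7 : u ^ 2 ≤ e ^ 2 := Nat.pow_le_pow_left (Nat.le_of_lt_succ hu.1) 2
      omega
  rw [h3, range_add_one, filter_insert, if_pos he, sum_insert]
  · rw [Nat.sub_self, Nat.zero_div, h0, zero_add]
  · simp

theorem SEL6 (hTGR : TGR_stmt) (hEXP : EXP_stmt) : SEL6_stmt := by
  intro m hm n hn
  have hn0 : 0 < n := Nat.pos_of_ne_zero (by
    rintro rfl
    norm_num at hn)
  rw [coeff_Psi, if_pos hn]
  have h1 : ∀ e ∈ n.divisors, coeff (e ^ 2) (tt ^ (1 + 24 * m)) =
      ∑ x ∈ SEL6_S n 6 1 e, coeff (x.1 * x.2) (DD ^ m) +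
        ∑ x ∈ SEL6_S n 2 3 e, coeff (x.1 * x.2) (DD ^ m) := by
    intro e he
    have h2 := Nat.dvd_of_mem_divisors he
    have h3 : e.Coprime 6 := hn.coprime_dvd_left h2
    rw [SEL6_coeff hTGR hEXP m hm e h3, SEL6_step1 e h3 (fun k => coeff k (DD ^ m)),
      SEL6_step2 n e (Nat.le_of_dvd hn0 h2) h3 (fun k => coeff k (DD ^ m))]
  rw [sum_congr rfl h1, sum_add_distrib,
    SEL6_sum n 6 1 hn0 (by norm_num) (by norm_num) (fun k => coeff k (DD ^ m)),
    SEL6_sum n 2 3 hn0 (by norm_num) (by norm_num) (fun k => coeff k (DD ^ m))]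
  unfold KS
  simp only [coeff_T]
  rfl

end Pool.Agent.LQ
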