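import Pool.Agent.helper57.LQ.SpecB

/-! Row lq:GN6 (MP_ebc808_nt) -/

set_option autoImplicit false

open Finset PowerSeries

noncomputable section

namespace Pool.Agent.LQ

theorem GN6_cop (k : ℕ) : k.Coprime 6 ↔ k % 2 = 1 ∧ k % 3 ≠ 0 := by
  constructor
  · intro he
    constructor
    · have : k.Coprime 2 := he.coprime_dvd_right (by norm_num)
      exact Nat.odd_iff.1 (Nat.coprime_two_right.1 this)
    · have : k.Coprime 3 := he.coprime_dvd_right (by norm_num)
      intro h
      have h4 := Nat.dvd_gcd (Nat.dvd_of_mod_eq_zero h) (dvd_refl 3)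
      rw [this.gcd_eq_one] at h4
      norm_num at h4
  · rintro ⟨h2, h3⟩
    have a2 : k.Coprime 2 := Nat.coprime_two_right.2 (Nat.odd_iff.2 h2)
    have a3 : k.Coprime 3 := ((Nat.Prime.coprime_iff_not_dvd Nat.prime_three).2
      (fun h => h3 (Nat.mod_eq_zero_of_dvd h))).symm
    exact (Nat.Coprime.mul_right a2 a3 : k.Coprime (2 * 3))

theorem GN6_T1 (f : FF) : T 1 f = f := by
  ext m
  rw [coeff_T, Nat.gcd_one_right, Nat.divisors_one, sum_singleton, one_pow, Nat.div_one, mul_one]

theorem GN6 (hTDL : TDL_stmt) (hHRC : HRC_stmt) (hTGR : TGR_stmt) : GN6_stmt := by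
  classical
  obtain ⟨t1, -, -, t4, -, -⟩ := hTGR
  have hl : ∀ l : ℕ, l.Prime → l.Coprime 6 → ∀ K : ℕ, ∀ f ∈ VV 6 tt K, T l f ∈ VV 6 tt K := by
    intro l hp hl6 K f hf
    have h5 : 5 ≤ l := by
      have h := (GN6_cop l).1 hl6
      have h2 := hp.two_le
      omega
    refine Submodule.span_induction (p := fun f _ => T l f ∈ VV 6 tt K) ?_ ?_ ?_ ?_ hf
    · rintro f ⟨i, hi, hi6, rfl⟩
      have hi1 : 1 ≤ i := by
        have h := (GN6_cop i).1 hi6
        omega
      have h := hTDL l hp h5 i hi1
      refine (Submodule.span_le.2 ?_ : Submodule.span (ZMod 2)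
        {f : FF | ∃ j : ℕ, (1 ≤ j ∧ j ≤ i ∧ j % 24 = l * i % 24) ∧ f = tt ^ j} ≤ VV 6 tt K) h
      rintro g ⟨j, ⟨-, hj2, hj3⟩, rfl⟩
      refine Submodule.subset_span ⟨j, lt_of_le_of_lt hj2 hi, ?_, rfl⟩
      have h6 : (l * i).Coprime 6 := Nat.Coprime.mul_left hl6 hi6
      rw [GN6_cop] at h6 ⊢
      omega
    · rw [map_zero]
      exact zero_mem _
    · intro f g _ _ hf hg
      rw [map_add]
      exact add_mem hf hg
    · intro c f _ hf
      rw [map_smul]
      exact Submodule.smul_mem _ _ hf
  refine ⟨by norm_num, ?_, ?_, ?_, ?_⟩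
  · rw [t1, if_neg]
    rintro ⟨u, hu, h⟩
    have : u = 0 := by
      have := h.symm
      exact pow_eq_zero_iff (two_ne_zero) |>.1 this
    subst this
    norm_num at hu
  · rw [t1, if_pos ⟨1, by norm_num, by norm_num⟩]
  · intro i hi m hm
    have h := t4 i m hm
    rw [GN6_cop] at hi ⊢
    omega
  · intro n
    induction n using Nat.strong_induction_on with
    | _ n ih =>
      intro hn i hi
      have hn0 : n ≠ 0 := by
        rintro rfl
        norm_num at hn
      by_cases hn1 : n = 1
      · subst hn1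
        rw [GN6_T1]
        exact Submodule.subset_span ⟨i, Nat.lt_succ_self i, hi, rfl⟩
      · obtain ⟨l, hp, k, hk⟩ := Nat.exists_prime_and_dvd hn1
        subst hk
        have hk0 : 0 < k := Nat.pos_of_ne_zero (by
          rintro rfl
          exact hn0 rfl)
        have hl6 : l.Coprime 6 := Nat.Coprime.coprime_mul_right hn
        have hk6 : k.Coprime 6 := Nat.Coprime.coprime_mul_left hn
        have hkl : k < l * k := by
          have := hp.two_le
          nlinarith
        have h := hHRC l k hp hk0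
        have h1 : T l (T k (tt ^ i)) ∈ VV 6 tt (i + 1) := hl l hp hl6 _ _ (ih k hkl hk6 i hi)
        have h2 : T l (T k (tt ^ i)) = T (l * k) (tt ^ i) +
            (if l ∣ k then T (k / l) else 0 : Module.End (ZMod 2) FF) (tt ^ i) := by
          rw [← LinearMap.add_apply, ← h, Module.End.mul_apply]
        have h3 : (if l ∣ k then T (k / l) else 0 : Module.End (ZMod 2) FF) (tt ^ i) ∈
            VV 6 tt (i + 1) := by
          by_cases hd : l ∣ k
          · rw [if_pos hd]
            refine ih (k / l) ?_ ?_ i hi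
            · exact lt_of_le_of_lt (Nat.div_le_self k l) hkl
            · exact hk6.coprime_dvd_left (Nat.div_dvd_of_dvd hd)
          · rw [if_neg hd, LinearMap.zero_apply]
            exact zero_mem _
        have h4 : T (l * k) (tt ^ i) = T l (T k (tt ^ i)) -
            (if l ∣ k then T (k / l) else 0 : Module.End (ZMod 2) FF) (tt ^ i) := by
          rw [h2, add_sub_cancel_right]
        rw [h4]
        exact sub_mem h1 h3

end Pool.Agent.LQ
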